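import Pool.Agent.L0h45.AV.Stm4

/-!
# Hensel's lemma for `z² + z = w`
-/

set_option autoImplicit false
set_option linter.all false

open WithZero Filter Topology IsDedekindDomain

namespace Pool.Agent.L0h29.AV

section

variable {L : Type*} [Field L] [Valued L (WithZero (Multiplicative ℤ))]

theorem nonarch : NonarchimedeanAddGroup L where
  is_nonarchimedean U hU := by
    obtain ⟨γ, hγ⟩ := Valued.mem_nhds_zero.1 hU
    refine ⟨⟨Valuation.ltAddSubgroup (Valued.v (R := L)).restrict γ, ?_⟩, ?_⟩
    · exact Valued.isOpen_ball L γ.1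
    · intro x hx
      exact hγ hx

theorem hensel_add [CompleteSpace L] [T0Space L] (x : L) (hx : Valued.v x < 1) :
    ∃ z : L, Valued.v z < 1 ∧ z ^ 2 + z = x := by
  let T : L → L := fun z => x - z ^ 2
  obtain ⟨z, z0, zs⟩ : ∃ z : ℕ → L, z 0 = 0 ∧ ∀ n, z (n + 1) = T (z n) :=
    ⟨fun n => Nat.rec 0 (fun _ y => T y) n, rfl, fun _ => rfl⟩
  set δ := Valued.v x with hδ
  have hT : ∀ y y' : L, Valued.v y ≤ δ → Valued.v y' ≤ δ →
      Valued.v (T y - T y') ≤ δ * Valued.v (y - y') := by
    intro y y' hy hy'
    have e : T y - T y' = (-y - y') * (y - y') := by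
      simp only [T]
      ring
    rw [e, map_mul]
    refine mul_le_mul_left ?_ _
    refine (Valued.v.map_sub _ _).trans (max_le ?_ hy')
    rw [Valuation.map_neg]
    exact hy
  have hA : ∀ n, Valued.v (z n) ≤ δ := by
    intro n
    induction n with
    | zero => rw [z0, map_zero]; exact zero_le
    | succ n ih =>
      rw [zs]
      simp only [T]
      refine (Valued.v.map_sub _ _).trans (max_le le_rfl ?_)
      rw [map_pow, sq]
      exact (mul_le_of_le_one_right' (ih.trans hx.le)).trans ih
  have hB : ∀ n, Valued.v (z (n + 1) - z n) ≤ Valued.v (x ^ (n + 1)) := by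
    intro n
    induction n with
    | zero =>
      rw [zero_add, pow_one, zs, z0]
      simp only [T]
      rw [zero_pow two_ne_zero, sub_zero, sub_zero]
    | succ n ih =>
      have h3 := hT (z (n + 1)) (z n) (hA _) (hA _)
      rw [← zs, ← zs] at h3
      refine h3.trans ?_
      rw [pow_succ' x, map_mul]
      exact mul_le_mul_right ih _
  have := nonarch (L := L)
  have hlim : Tendsto (fun n => z (n + 1) - z n) atTop (𝓝 0) := by
    have h3 : Tendsto (fun n : ℕ => x ^ (n + 1)) atTop (𝓝 0) :=
      (Valued.tendsto_zero_pow_of_v_lt_one hx).comp (tendsto_add_atTop_nat 1)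
    rw [(Valued.hasBasis_nhds_zero L _).tendsto_right_iff] at h3 ⊢
    intro γ hγ
    filter_upwards [h3 γ hγ] with n hn
    have h4 : (Valued.v (R := L)).restrict (z (n + 1) - z n) ≤
        (Valued.v (R := L)).restrict (x ^ (n + 1)) :=
      (Valuation.restrict_le_iff _).2 (hB n)
    exact lt_of_le_of_lt h4 hn
  have hcau : CauchySeq z := NonarchimedeanAddGroup.cauchySeq_of_tendsto_sub_nhds_zero hlim
  obtain ⟨w, hw⟩ := cauchySeq_tendsto_of_complete hcau
  have hTc : Continuous T := by
    simp only [T]
    fun_prop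
  have hw1 : Tendsto (fun n => z (n + 1)) atTop (𝓝 w) := hw.comp (tendsto_add_atTop_nat 1)
  have hw2 : Tendsto (fun n => z (n + 1)) atTop (𝓝 (T w)) := by
    simp only [zs]
    exact (hTc.tendsto w).comp hw
  have : T2Space L := inferInstance
  have hfix : T w = w := tendsto_nhds_unique hw2 hw1
  refine ⟨w, ?_, ?_⟩
  · have hcl : IsClosed {y : L | (Valued.v (R := L)).restrict y < 1} :=
      Valued.isClosed_ball L (1 : MonoidWithZeroHom.ValueGroup₀ (.ofClass (Valued.v (R := L))))
    have h8 : w ∈ {y : L | (Valued.v (R := L)).restrict y < 1} := by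
      refine hcl.mem_of_tendsto hw (Eventually.of_forall fun n => ?_)
      show (Valued.v (R := L)).restrict (z n) < 1
      rw [Valuation.restrict_lt_one_iff]
      exact lt_of_le_of_lt (hA n) hx
    have h9 : (Valued.v (R := L)).restrict w < 1 := h8
    rwa [Valuation.restrict_lt_one_iff] at h9
  · have h5 : x - w ^ 2 = w := hfix
    linear_combination -h5

end

theorem t_HENe : Pool.Agent.L0h45.AV.S_HENe := by
  intro M R _ _ _ _ _ v w hw
  exact hensel_add (L := v.adicCompletion M) w hw

end Pool.Agent.L0h29.AV
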